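import Mathlib

set_option autoImplicit false

namespace Pool.Agent.Lib.MP_63e314_pr

open Finset

set_option linter.unusedSectionVars false

section coord

/-- Coordinate factor of the red vector of a point. -/
noncomputable def redc (u : ℝ) (free x z : Bool) : ℝ :=
  if z = x then 1 else if free then (if x then -u else u) else 0

/-- Coordinate factor of the rotation matrix. -/
noncomputable def rhoc (t : ℝ) (inT z' z : Bool) : ℝ :=
  if z' = z then 1 else if inT then (if z' then t else -t) else 0

lemma redc_ne {u : ℝ} {free x z : Bool} (h : redc u free x z ≠ 0) (hf : free = false) :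
    z = x := by
  subst hf
  by_contra hne
  apply h
  simp [redc, hne]

lemma sum_rho_red {u t : ℝ} (hut : u * t = 1) {inT inJ x z' : Bool}
    (h : ∑ b : Bool, rhoc t inT z' b * redc u (inT && !inJ) x b ≠ 0) (hJ : inJ = false) :
    z' = xor x inT := by
  subst hJ
  revert h
  cases inT <;> cases x <;> cases z' <;> simp [rhoc, redc] <;> nlinarith

lemma abs_rhoc_le_one {t : ℝ} (ht0 : 0 ≤ t) (ht : t ≤ 1) (inT z' z : Bool) :
    |rhoc t inT z' z| ≤ 1 := by
  unfold rhoc
  split_ifs <;> simp [abs_of_nonneg ht0, ht]

lemma abs_rhoc_le {t : ℝ} (ht0 : 0 ≤ t) (inT : Bool) {z' z : Bool} (h : z' ≠ z) :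
    |rhoc t inT z' z| ≤ t := by
  unfold rhoc
  split_ifs <;> simp_all [abs_of_nonneg ht0]

end coord

variable {ι : Type*} [Fintype ι] [DecidableEq ι]

/-- The red vector of `x` with witness set `J`, flipping set `T`. -/
noncomputable def red (u : ℝ) (T : ι → Bool) (J : ι → Bool) (x z : ι → Bool) : ℝ :=
  ∏ i, redc u (T i && !J i) (x i) (z i)

noncomputable def rho (t : ℝ) (T : ι → Bool) (z' z : ι → Bool) : ℝ :=
  ∏ i, rhoc t (T i) (z' i) (z i)

lemma red_supp {u : ℝ} {T J x z : ι → Bool} (h : red u T J x z ≠ 0) (i : ι) (hi : J i = true) :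
    z i = x i := by
  have h1 := Finset.prod_ne_zero_iff.mp h i (Finset.mem_univ i)
  exact redc_ne h1 (by simp [hi])

lemma rho_red_eq (u t : ℝ) (T J x z' : ι → Bool) :
    ∑ z, rho t T z' z * red u T J x z
      = ∏ i, ∑ b : Bool, rhoc t (T i) (z' i) b * redc u (T i && !J i) (x i) b := by
  rw [Finset.prod_univ_sum]
  simp only [Fintype.piFinset_univ]
  refine Finset.sum_congr rfl fun z _ => ?_
  simp only [rho, red, Finset.prod_mul_distrib]

lemma rho_red_supp {u t : ℝ} (hut : u * t = 1) {T J x z' : ι → Bool}
    (h : ∑ z, rho t T z' z * red u T J x z ≠ 0) (i : ι) (hi : J i = false) :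
    z' i = xor (x i) (T i) := by
  rw [rho_red_eq] at h
  have h1 := Finset.prod_ne_zero_iff.mp h i (Finset.mem_univ i)
  exact sum_rho_red hut h1 hi

lemma rho_self (t : ℝ) (T z : ι → Bool) : rho t T z z = 1 := by
  simp [rho, rhoc]

lemma abs_rho_le {t : ℝ} (ht0 : 0 ≤ t) (ht : t ≤ 1) (T : ι → Bool) {z' z : ι → Bool}
    (h : z' ≠ z) : |rho t T z' z| ≤ t := by
  obtain ⟨i, hi⟩ := Function.ne_iff.mp h
  unfold rho
  rw [Finset.abs_prod, ← Finset.mul_prod_erase _ _ (Finset.mem_univ i)]
  calc |rhoc t (T i) (z' i) (z i)| * ∏ x ∈ univ.erase i, |rhoc t (T x) (z' x) (z x)|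
      ≤ t * 1 := by
        apply mul_le_mul (abs_rhoc_le ht0 _ hi) _ (Finset.prod_nonneg fun _ _ => abs_nonneg _) ht0
        exact Finset.prod_le_one (fun _ _ => abs_nonneg _) (fun j _ => abs_rhoc_le_one ht0 ht _ _ _)
    _ = t := mul_one t

lemma rho_pos {t : ℝ} (ht0 : 0 < t) (ht : t * Fintype.card (ι → Bool) < 1) (T : ι → Bool)
    (v : (ι → Bool) → ℝ) (hv : ∑ z', v z' * ∑ z, rho t T z' z * v z = 0) : v = 0 := by
  have hcard : (1 : ℝ) ≤ Fintype.card (ι → Bool) := by
    exact_mod_cast Fintype.card_pos
  have ht1 : t ≤ 1 := by nlinarith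
  -- lower bound for the quadratic form
  have h1 : ∀ z' z, v z' * (rho t T z' z * v z) ≥
      (if z' = z then v z ^ 2 else 0) - t * (|v z'| * |v z|) := by
    intro z' z
    by_cases h : z' = z
    · subst h
      simp only [rho_self, one_mul, if_true]
      have : 0 ≤ t * (|v z'| * |v z'|) := by positivity
      nlinarith
    · simp only [h, if_false, zero_sub]
      have h2 : |v z' * (rho t T z' z * v z)| ≤ t * (|v z'| * |v z|) := by
        rw [abs_mul, abs_mul]
        have h3 := abs_rho_le ht0.le ht1 T h
        have h4 : 0 ≤ |v z'| * |v z| := by positivity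
        nlinarith
      linarith [neg_abs_le (v z' * (rho t T z' z * v z))]
  have h2 : ∑ z', v z' * ∑ z, rho t T z' z * v z ≥
      ∑ z', ∑ z, ((if z' = z then v z ^ 2 else 0) - t * (|v z'| * |v z|)) := by
    simp only [Finset.mul_sum]
    exact Finset.sum_le_sum fun z' _ => Finset.sum_le_sum fun z _ => h1 z' z
  have h3 : ∑ z', ∑ z, ((if z' = z then v z ^ 2 else 0) - t * (|v z'| * |v z|))
      = ∑ z, v z ^ 2 - t * (∑ z, |v z|) ^ 2 := by
    simp only [Finset.sum_sub_distrib, Finset.sum_ite_eq, Finset.mem_univ, if_true]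
    rw [sq (∑ z, |v z|), Finset.sum_mul_sum, Finset.mul_sum]
    simp only [Finset.mul_sum]
  have h4 : (∑ z, |v z|) ^ 2 ≤ Fintype.card (ι → Bool) * ∑ z, v z ^ 2 := by
    have := sq_sum_le_card_mul_sum_sq (s := (Finset.univ : Finset (ι → Bool))) (f := fun z => |v z|)
    simpa using this
  have h5 : 0 ≤ ∑ z, v z ^ 2 := Finset.sum_nonneg fun _ _ => sq_nonneg _
  have h6 : ∑ z, v z ^ 2 ≤ 0 := by
    rw [hv, h3] at h2
    by_contra hpos
    push Not at hpos
    have : t * (∑ z, |v z|) ^ 2 ≤ t * (Fintype.card (ι → Bool) * ∑ z, v z ^ 2) :=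
      mul_le_mul_of_nonneg_left h4 ht0.le
    nlinarith
  have h7 : ∑ z, v z ^ 2 = 0 := le_antisymm h6 h5
  rw [Finset.sum_eq_zero_iff_of_nonneg (fun _ _ => sq_nonneg _)] at h7
  funext z
  have := h7 z (Finset.mem_univ z)
  simpa using this

/-- For all but finitely many `u`, red vectors are linearly independent. -/
lemma exists_u (T : ι → Bool) (J : (ι → Bool) → ι → Bool) (M : ℝ) :
    ∃ u : ℝ, M < u ∧ (Matrix.of fun z x : ι → Bool => red u T (J x) x z).det ≠ 0 := by
  classical
  let pc : Bool → Bool → Bool → Polynomial ℝ := fun free x z =>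
    if z = x then 1 else if free then (if x then -Polynomial.X else Polynomial.X) else 0
  have hpc : ∀ u free x z, (pc free x z).eval u = redc u free x z := by
    intro u free x z
    simp only [pc, redc]
    split_ifs <;> simp
  let P : Polynomial ℝ :=
    (Matrix.of fun z x : ι → Bool => ∏ i, pc (T i && !J x i) (x i) (z i)).det
  have hP : ∀ u, P.eval u = (Matrix.of fun z x : ι → Bool => red u T (J x) x z).det := by
    intro u
    have := RingHom.map_det (Polynomial.evalRingHom u)
      (Matrix.of fun z x : ι → Bool => ∏ i, pc (T i && !J x i) (x i) (z i))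
    simp only [Polynomial.coe_evalRingHom] at this
    rw [show P.eval u = _ from this]
    congr 1
    ext z x
    simp only [RingHom.mapMatrix_apply, Matrix.map_apply, Matrix.of_apply,
      Polynomial.coe_evalRingHom, Polynomial.eval_prod, hpc, red]
  have h0 : P.eval 0 = 1 := by
    rw [hP]
    rw [← Matrix.det_one (n := ι → Bool) (R := ℝ)]
    congr 1
    ext z x
    simp only [Matrix.of_apply, red, Matrix.one_apply]
    split_ifs with h
    · subst h
      simp [redc]
    · obtain ⟨i, hi⟩ := Function.ne_iff.mp h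
      apply Finset.prod_eq_zero (Finset.mem_univ i)
      simp [redc, hi]
  have hne : P ≠ 0 := by
    intro h
    rw [h] at h0
    simp at h0
  have hfin : (P.roots.toFinset : Set ℝ).Finite := Finset.finite_toSet _
  obtain ⟨u, hu, hu2⟩ := (Set.Ioi_infinite M).exists_notMem_finite hfin
  refine ⟨u, hu, ?_⟩
  rw [← hP]
  intro h
  apply hu2
  simp [hne, Polynomial.IsRoot, h]

/-- Reimer's butterfly theorem, with a general flipping set `T`. -/
theorem butterfly (X U V : Finset (ι → Bool)) (J : (ι → Bool) → ι → Bool) (T : ι → Bool)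
    (hU : ∀ x ∈ X, ∀ z : ι → Bool, (∀ i, J x i = true → z i = x i) → z ∈ U)
    (hV : ∀ x ∈ X, ∀ z : ι → Bool, (∀ i, J x i = false → z i = xor (x i) (T i)) → z ∈ V) :
    X.card ≤ (U ∩ V).card := by
  classical
  obtain ⟨u, hu, hdet⟩ := exists_u T J (Fintype.card (ι → Bool) : ℝ)
  have hcard : (1 : ℝ) ≤ Fintype.card (ι → Bool) := by
    exact_mod_cast Fintype.card_pos
  have hu0 : 0 < u := by linarith
  set t : ℝ := u⁻¹ with ht
  have ht0 : 0 < t := inv_pos.mpr hu0
  have hut : u * t = 1 := mul_inv_cancel₀ hu0.ne'
  have htc : t * Fintype.card (ι → Bool) < 1 := by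
    calc t * Fintype.card (ι → Bool) < t * u := mul_lt_mul_of_pos_left hu ht0
      _ = 1 := by rw [mul_comm]; exact hut
  let Φ : (X → ℝ) →ₗ[ℝ] (↥(U ∩ V) → ℝ) :=
    { toFun := fun c z => ∑ x : X, c x * red u T (J x) x z
      map_add' := by
        intro c d
        funext z
        simp [add_mul, Finset.sum_add_distrib]
      map_smul' := by
        intro a c
        funext z
        simp [Finset.mul_sum, mul_assoc] }
  have hinj : Function.Injective Φ := by
    rw [← LinearMap.ker_eq_bot, LinearMap.ker_eq_bot']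
    intro c hc
    let v : (ι → Bool) → ℝ := fun z => ∑ x : X, c x * red u T (J x) x z
    have hvU : ∀ z, z ∉ U → v z = 0 := by
      intro z hz
      apply Finset.sum_eq_zero
      intro x _
      by_contra hne
      apply hz
      exact hU x x.2 z fun i hi => red_supp (right_ne_zero_of_mul hne) i hi
    have hvUV : ∀ z, z ∈ U ∩ V → v z = 0 := by
      intro z hz
      exact congrFun hc ⟨z, hz⟩
    have hvV : ∀ z, z ∈ V → v z = 0 := by
      intro z hz
      by_cases h : z ∈ U
      · exact hvUV z (Finset.mem_inter.mpr ⟨h, hz⟩)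
      · exact hvU z h
    have hrv : ∀ z', z' ∉ V → ∑ z, rho t T z' z * v z = 0 := by
      intro z' hz'
      have : ∑ z, rho t T z' z * v z = ∑ x : X, c x * ∑ z, rho t T z' z * red u T (J x) x z := by
        simp only [v, Finset.mul_sum]
        rw [Finset.sum_comm]
        refine Finset.sum_congr rfl fun x _ => Finset.sum_congr rfl fun z _ => ?_
        ring
      rw [this]
      apply Finset.sum_eq_zero
      intro x _
      by_contra hne
      apply hz'
      exact hV x x.2 z' fun i hi => rho_red_supp hut (right_ne_zero_of_mul hne) i hi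
    have hv0 : v = 0 := by
      apply rho_pos ht0 htc T
      apply Finset.sum_eq_zero
      intro z' _
      by_cases h : z' ∈ V
      · rw [hvV z' h, zero_mul]
      · rw [hrv z' h, mul_zero]
    -- linear independence
    let c' : (ι → Bool) → ℝ := fun x => if h : x ∈ X then c ⟨x, h⟩ else 0
    have hmul : (Matrix.of fun z x : ι → Bool => red u T (J x) x z).mulVec c' = 0 := by
      funext z
      simp only [Matrix.mulVec, dotProduct, Matrix.of_apply, Pi.zero_apply]
      have h1 : ∑ x, red u T (J x) x z * c' x = ∑ x ∈ X, red u T (J x) x z * c' x := by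
        symm
        apply Finset.sum_subset (Finset.subset_univ _)
        intro x _ hx
        simp [c', hx]
      rw [h1, ← Finset.sum_coe_sort]
      have h2 := congrFun hv0 z
      simp only [v, Pi.zero_apply] at h2
      rw [← h2]
      refine Finset.sum_congr rfl fun x _ => ?_
      simp [c', mul_comm]
    have hc' : c' = 0 := Matrix.eq_zero_of_mulVec_eq_zero hdet hmul
    funext x
    have := congrFun hc' x
    simpa [c'] using this
  have := LinearMap.finrank_le_finrank_of_injective hinj
  rw [Module.finrank_fintype_fun_eq_card, Module.finrank_fintype_fun_eq_card,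
    Fintype.card_coe, Fintype.card_coe] at this
  exact this

/-- The disjoint-occurrence (box) operation on events of `ι → S`. -/
def Box {S : Type*} (A B : Set (ι → S)) : Set (ι → S) :=
  {ω | ∃ J K : Set ι, Disjoint J K ∧ (∀ η : ι → S, (∀ i ∈ J, η i = ω i) → η ∈ A) ∧
    (∀ η : ι → S, (∀ i ∈ K, η i = ω i) → η ∈ B)}

/-- Reimer's inequality in the form `|A □ B| ≤ |{z ∈ A : z xor T ∈ B}|`. -/
theorem reimer_flip (A B : Finset (ι → Bool)) (C : Finset (ι → Bool))
    (hC : (C : Set (ι → Bool)) ⊆ Box (A : Set (ι → Bool)) (B : Set (ι → Bool)))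
    (T : ι → Bool) :
    C.card ≤ (A ∩ Finset.univ.filter fun z => (fun i => xor (z i) (T i)) ∈ B).card := by
  classical
  have hC' : ∀ x ∈ C, ∃ J : ι → Bool,
      (∀ z : ι → Bool, (∀ i, J i = true → z i = x i) → z ∈ A) ∧
      (∀ z : ι → Bool, (∀ i, J i = false → z i = x i) → z ∈ B) := by
    intro x hx
    obtain ⟨J, K, hJK, hA, hB⟩ := hC hx
    refine ⟨fun i => decide (i ∈ J), ?_, ?_⟩
    · intro z hz
      exact hA z fun i hi => hz i (by simpa using hi)
    · intro z hz
      exact hB z fun i hi => hz i (by simpa using Set.disjoint_right.mp hJK hi)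
  choose! J hJA hJB using hC'
  refine butterfly C A _ J T hJA ?_
  intro x hx z hz
  simp only [Finset.mem_filter, Finset.mem_univ, true_and]
  apply hJB x hx
  intro i hi
  rw [hz i hi]
  simp

/-- The BKR inequality for the uniform measure on `ι → Bool`. -/
theorem bkr_bool (A B C : Finset (ι → Bool))
    (hC : (C : Set (ι → Bool)) ⊆ Box (A : Set (ι → Bool)) (B : Set (ι → Bool))) :
    C.card * Fintype.card (ι → Bool) ≤ A.card * B.card := by
  classical
  have h1 : ∀ T : ι → Bool,
      C.card ≤ ∑ z ∈ A, if (fun i => xor (z i) (T i)) ∈ B then 1 else 0 := by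
    intro T
    refine (reimer_flip A B C hC T).trans (le_of_eq ?_)
    rw [Finset.card_eq_sum_ones, ← Finset.filter_mem_eq_inter, Finset.sum_filter]
    simp only [Finset.mem_filter, Finset.mem_univ, true_and]
  calc C.card * Fintype.card (ι → Bool) = ∑ _T : ι → Bool, C.card := by
        simp [mul_comm]
    _ ≤ ∑ T : ι → Bool, ∑ z ∈ A, (if (fun i => xor (z i) (T i)) ∈ B then 1 else 0) :=
        Finset.sum_le_sum fun T _ => h1 T
    _ = ∑ z ∈ A, ∑ T : ι → Bool, (if (fun i => xor (z i) (T i)) ∈ B then 1 else 0) :=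
        Finset.sum_comm
    _ = ∑ z ∈ A, B.card := by
        refine Finset.sum_congr rfl fun z _ => ?_
        let e : (ι → Bool) ≃ (ι → Bool) :=
          { toFun := fun T i => xor (z i) (T i)
            invFun := fun T i => xor (z i) (T i)
            left_inv := by
              intro T
              funext i
              simp
            right_inv := by
              intro T
              funext i
              simp }
        have h2 := Equiv.sum_comp e (fun y : ι → Bool => if y ∈ B then (1 : ℕ) else 0)
        rw [show (∑ T : ι → Bool, (if (fun i => xor (z i) (T i)) ∈ B then 1 else 0))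
          = ∑ T, (fun y : ι → Bool => if y ∈ B then (1 : ℕ) else 0) (e T) from rfl, h2]
        simp
    _ = A.card * B.card := by simp

/-- The BKR inequality for the uniform measure on `ι → S`, when `S` is in bijection with
`κ → Bool`. -/
theorem bkr_equiv {κ S : Type*} [Fintype κ] [DecidableEq κ] [Fintype S] [DecidableEq S]
    (e : S ≃ (κ → Bool)) (A B C : Finset (ι → S))
    (hC : (C : Set (ι → S)) ⊆ Box (A : Set (ι → S)) (B : Set (ι → S))) :
    C.card * Fintype.card (ι → S) ≤ A.card * B.card := by
  classical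
  let E : (ι → S) ≃ (ι × κ → Bool) :=
    { toFun := fun ω p => e (ω p.1) p.2
      invFun := fun η i => e.symm fun k => η (i, k)
      left_inv := by
        intro ω
        funext i
        simp
      right_inv := by
        intro η
        funext p
        simp }
  have key := bkr_bool (A.map E.toEmbedding) (B.map E.toEmbedding) (C.map E.toEmbedding) ?_
  · simp only [Finset.card_map] at key
    rwa [← Fintype.card_congr E] at key
  · intro y hy
    simp only [Finset.coe_map, Set.mem_image, Finset.mem_coe] at hy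
    obtain ⟨x, hx, rfl⟩ := hy
    obtain ⟨J, K, hJK, hA, hB⟩ := hC hx
    refine ⟨Prod.fst ⁻¹' J, Prod.fst ⁻¹' K, hJK.preimage _, ?_, ?_⟩
    · intro η hη
      simp only [Finset.coe_map, Set.mem_image, Finset.mem_coe]
      refine ⟨E.symm η, ?_, by simp⟩
      apply hA
      intro i hi
      apply e.injective
      funext k
      have := hη (i, k) hi
      simpa [E] using this
    · intro η hη
      simp only [Finset.coe_map, Set.mem_image, Finset.mem_coe]
      refine ⟨E.symm η, ?_, by simp⟩
      apply hB
      intro i hi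
      apply e.injective
      funext k
      have := hη (i, k) hi
      simpa [E] using this

end Pool.Agent.Lib.MP_63e314_pr
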