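import Mathlib
import Pool.Agent.Lib.MP_63e314_pr.Reimer

set_option autoImplicit false

namespace Pool.Agent.Lib.MP_63e314_pr

open MeasureTheory

/-- Dyadic quantization of level `k` on the unit interval. -/
noncomputable def q (k : ℕ) (x : unitInterval) : Fin (2 ^ k) :=
  ⟨min ⌊(2 : ℝ) ^ k * (x : ℝ)⌋₊ (2 ^ k - 1), by
    have : 0 < 2 ^ k := by positivity
    omega⟩

lemma q_le (k : ℕ) (x : unitInterval) : ((q k x : ℕ) : ℝ) ≤ 2 ^ k * (x : ℝ) := by
  have h0 : (0 : ℝ) ≤ 2 ^ k * (x : ℝ) := mul_nonneg (by positivity) x.2.1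
  have h1 : (q k x : ℕ) ≤ ⌊(2 : ℝ) ^ k * (x : ℝ)⌋₊ := min_le_left _ _
  calc ((q k x : ℕ) : ℝ) ≤ (⌊(2 : ℝ) ^ k * (x : ℝ)⌋₊ : ℝ) := Nat.cast_le.mpr h1
    _ ≤ _ := Nat.floor_le h0

lemma le_q (k : ℕ) (x : unitInterval) : 2 ^ k * (x : ℝ) ≤ ((q k x : ℕ) : ℝ) + 1 := by
  have h0 : (0 : ℝ) ≤ 2 ^ k * (x : ℝ) := mul_nonneg (by positivity) x.2.1
  have h1 := Nat.lt_floor_add_one ((2 : ℝ) ^ k * (x : ℝ))
  rcases le_total ⌊(2 : ℝ) ^ k * (x : ℝ)⌋₊ (2 ^ k - 1) with h | h
  · have : (q k x : ℕ) = ⌊(2 : ℝ) ^ k * (x : ℝ)⌋₊ := min_eq_left h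
    rw [this]
    exact h1.le
  · have : (q k x : ℕ) = 2 ^ k - 1 := min_eq_right h
    rw [this]
    have h2 : (1 : ℕ) ≤ 2 ^ k := Nat.one_le_two_pow
    push_cast [Nat.cast_sub h2]
    have h3 : (x : ℝ) ≤ 1 := x.2.2
    have h4 : (0 : ℝ) < 2 ^ k := by positivity
    nlinarith

lemma q_eq {k : ℕ} {x : unitInterval} {j : Fin (2 ^ k)} (h1 : ((j : ℕ) : ℝ) ≤ 2 ^ k * (x : ℝ))
    (h2 : 2 ^ k * (x : ℝ) < ((j : ℕ) : ℝ) + 1) : q k x = j := by
  have h0 : (0 : ℝ) ≤ 2 ^ k * (x : ℝ) := mul_nonneg (by positivity) x.2.1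
  have : ⌊(2 : ℝ) ^ k * (x : ℝ)⌋₊ = (j : ℕ) := (Nat.floor_eq_iff h0).mpr ⟨h1, h2⟩
  apply Fin.ext
  show min _ _ = _
  rw [this]
  have := j.2
  omega

lemma measurable_q (k : ℕ) : Measurable (q k) := by
  have h1 : Measurable fun x : unitInterval => min ⌊(2 : ℝ) ^ k * (x : ℝ)⌋₊ (2 ^ k - 1) := by
    apply Measurable.min _ measurable_const
    exact Nat.measurable_floor.comp (measurable_const.mul measurable_subtype_coe)
  apply measurable_to_countable'
  intro j
  have : q k ⁻¹' {j} = (fun x : unitInterval => min ⌊(2 : ℝ) ^ k * (x : ℝ)⌋₊ (2 ^ k - 1)) ⁻¹' {(j : ℕ)} := by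
    ext x
    simp only [Set.mem_preimage, Set.mem_singleton_iff]
    exact Fin.ext_iff
  rw [this]
  exact h1 (measurableSet_singleton _)

lemma dist_of_q_eq {k : ℕ} {x y : unitInterval} (h : q k x = q k y) :
    |(x : ℝ) - (y : ℝ)| ≤ (1 / 2) ^ k := by
  have h1 := q_le k x
  have h2 := le_q k x
  have h3 := q_le k y
  have h4 := le_q k y
  rw [h] at h1 h2
  have h5 : (0 : ℝ) < 2 ^ k := by positivity
  have h6 : |2 ^ k * ((x : ℝ) - (y : ℝ))| ≤ 1 := by
    rw [abs_le]
    constructor <;> linarith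
  rw [abs_mul, abs_of_pos h5] at h6
  rw [one_div, inv_pow, ← one_div, le_div_iff₀ h5]
  linarith

lemma volume_q (k : ℕ) (j : Fin (2 ^ k)) :
    (volume : Measure unitInterval) (q k ⁻¹' {j}) = ENNReal.ofReal ((1 / 2) ^ k) := by
  have h5 : (0 : ℝ) < 2 ^ k := by positivity
  have hvol : ∀ s : Set unitInterval,
      (volume : Measure unitInterval) s = (volume : Measure ℝ) (Subtype.val '' s) := by
    intro s
    exact comap_subtype_coe_apply measurableSet_Icc volume s
  rw [hvol]
  have hlen : ((j : ℕ) + 1 : ℝ) / 2 ^ k - ((j : ℕ) : ℝ) / 2 ^ k = (1 / 2) ^ k := by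
    rw [one_div, inv_pow]
    field_simp
    ring
  apply le_antisymm
  · calc volume (Subtype.val '' (q k ⁻¹' {j}))
        ≤ volume (Set.Icc (((j : ℕ) : ℝ) / 2 ^ k) (((j : ℕ) + 1 : ℝ) / 2 ^ k)) := by
          apply measure_mono
          rintro _ ⟨x, hx, rfl⟩
          have hx' : q k x = j := hx
          have h1 := q_le k x
          have h2 := le_q k x
          rw [hx'] at h1 h2
          constructor
          · rw [div_le_iff₀ h5]
            linarith
          · rw [le_div_iff₀ h5]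
            linarith
      _ = ENNReal.ofReal ((1 / 2) ^ k) := by rw [Real.volume_Icc, hlen]
  · calc ENNReal.ofReal ((1 / 2) ^ k)
        = volume (Set.Ico (((j : ℕ) : ℝ) / 2 ^ k) (((j : ℕ) + 1 : ℝ) / 2 ^ k)) := by
          rw [Real.volume_Ico, hlen]
      _ ≤ volume (Subtype.val '' (q k ⁻¹' {j})) := by
          apply measure_mono
          intro x hx
          have h1 : 0 ≤ x := le_trans (by positivity) hx.1
          have h2 : x ≤ 1 := by
            have h3 : ((j : ℕ) + 1 : ℝ) / 2 ^ k ≤ 1 := by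
              rw [div_le_one h5]
              exact_mod_cast j.2
            linarith [hx.2]
          refine ⟨⟨x, h1, h2⟩, ?_, rfl⟩
          apply q_eq
          · have := hx.1
            rw [div_le_iff₀ h5] at this
            linarith
          · have := hx.2
            rw [lt_div_iff₀ h5] at this
            linarith

/-- The sequence space. -/
abbrev Om : Type := ℕ → unitInterval

/-- Product Lebesgue measure. -/
noncomputable abbrev mu : Measure Om :=
  Measure.infinitePi (fun _ : ℕ => (volume : Measure unitInterval))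

/-- Quantization of a point of the sequence space. -/
noncomputable def Q (k : ℕ) (ω : Om) : Fin k → Fin (2 ^ k) := fun i => q k (ω i)

lemma measurable_Q (k : ℕ) : Measurable (Q k) := by
  apply measurable_pi_lambda
  intro i
  exact (measurable_q k).comp (measurable_pi_apply _)

lemma mu_Q_singleton (k : ℕ) (s : Fin k → Fin (2 ^ k)) :
    mu (Q k ⁻¹' {s}) = ENNReal.ofReal (((1 / 2) ^ k) ^ k) := by
  classical
  let t : ℕ → Set unitInterval := fun i => if h : i < k then q k ⁻¹' {s ⟨i, h⟩} else Set.univ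
  have h1 : Q k ⁻¹' {s} = (↑(Finset.range k) : Set ℕ).pi t := by
    ext ω
    simp only [Set.mem_preimage, Set.mem_singleton_iff, Set.mem_pi, Finset.coe_range, Set.mem_Iio]
    constructor
    · intro h i hi
      simp only [t, hi, dif_pos, Set.mem_preimage, Set.mem_singleton_iff]
      exact congrFun h ⟨i, hi⟩
    · intro h
      funext i
      have h3 := h i i.2
      simp only [t, i.2, dif_pos, Set.mem_preimage, Set.mem_singleton_iff] at h3
      exact h3
  rw [h1, Measure.infinitePi_pi]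
  · rw [Finset.prod_range]
    have : ∀ i : Fin k, (volume : Measure unitInterval) (t i) = ENNReal.ofReal ((1 / 2) ^ k) := by
      intro i
      simp only [t, i.2, dif_pos]
      exact volume_q k _
    simp only [this, Finset.prod_const, Finset.card_univ, Fintype.card_fin]
    rw [← ENNReal.ofReal_pow (by positivity)]
  · intro i _
    by_cases h : i < k
    · simp only [t, h, dif_pos]
      exact measurable_q k (measurableSet_singleton _)
    · simp only [t, h, dif_neg, not_false_eq_true]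
      exact MeasurableSet.univ

lemma mu_Q (k : ℕ) (A : Finset (Fin k → Fin (2 ^ k))) :
    mu (Q k ⁻¹' (A : Set (Fin k → Fin (2 ^ k)))) = A.card * ENNReal.ofReal (((1 / 2) ^ k) ^ k) := by
  rw [← sum_measure_preimage_singleton]
  · simp only [mu_Q_singleton, Finset.sum_const, nsmul_eq_mul]
  · intro y _
    exact measurable_Q k (measurableSet_singleton _)

lemma mu_Q_box (k : ℕ) (A B C : Finset (Fin k → Fin (2 ^ k)))
    (hC : (C : Set (Fin k → Fin (2 ^ k))) ⊆ Box (A : Set _) (B : Set _)) :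
    mu (Q k ⁻¹' (C : Set (Fin k → Fin (2 ^ k)))) ≤
      mu (Q k ⁻¹' (A : Set (Fin k → Fin (2 ^ k)))) *
      mu (Q k ⁻¹' (B : Set (Fin k → Fin (2 ^ k)))) := by
  have e : Fin (2 ^ k) ≃ (Fin k → Bool) := Fintype.equivOfCardEq (by simp)
  have h := bkr_equiv e A B C hC
  simp only [Fintype.card_fun, Fintype.card_fin] at h
  rw [mu_Q, mu_Q, mu_Q]
  have hcast : ∀ n : ℕ, (n : ENNReal) * ENNReal.ofReal (((1 / 2 : ℝ) ^ k) ^ k)
      = ENNReal.ofReal (n * ((1 / 2 : ℝ) ^ k) ^ k) := by
    intro n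
    rw [ENNReal.ofReal_mul (by positivity), ENNReal.ofReal_natCast]
  rw [hcast, hcast, hcast, ← ENNReal.ofReal_mul (by positivity)]
  apply ENNReal.ofReal_le_ofReal
  have h' : (C.card : ℝ) * (2 ^ k) ^ k ≤ A.card * B.card := by exact_mod_cast h
  set c : ℝ := ((1 / 2 : ℝ) ^ k) ^ k with hc
  have hc1 : (2 ^ k : ℝ) ^ k * c = 1 := by
    rw [hc, ← mul_pow, ← mul_pow]
    simp
  have hc0 : 0 ≤ c := by positivity
  calc (C.card : ℝ) * c = (C.card : ℝ) * ((2 ^ k : ℝ) ^ k * c) * c := by rw [hc1]; ring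
    _ = ((C.card : ℝ) * (2 ^ k) ^ k) * (c * c) := by ring
    _ ≤ (A.card * B.card) * (c * c) := mul_le_mul_of_nonneg_right h' (by positivity)
    _ = A.card * c * (B.card * c) := by ring

/-- If an infinite-dimensional cylinder lies in an open set, its dyadic neighbourhoods on finitely
many coordinates also do. -/
lemma cyl_open {U : Set Om} (hU : IsOpen U) {J : Set ℕ} {ω : Om}
    (h : ∀ η : Om, (∀ i ∈ J, η i = ω i) → η ∈ U) :
    ∃ N, ∀ k, N ≤ k → ∀ η : Om, (∀ i ∈ J, i < k → q k (η i) = q k (ω i)) → η ∈ U := by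
  let F : ℕ → Set Om := fun n =>
    Uᶜ ∩ {η | ∀ i ∈ J, i < n → |((η i : unitInterval) : ℝ) - ((ω i : unitInterval) : ℝ)| ≤ (1 / 2) ^ n}
  have hFcl : ∀ n, IsClosed (F n) := by
    intro n
    apply hU.isClosed_compl.inter
    have : {η : Om | ∀ i ∈ J, i < n → |((η i : unitInterval) : ℝ) - ((ω i : unitInterval) : ℝ)| ≤ (1 / 2) ^ n}
        = ⋂ i ∈ J, ⋂ (_ : i < n), {η : Om | |((η i : unitInterval) : ℝ) - ((ω i : unitInterval) : ℝ)| ≤ (1 / 2) ^ n} := by
      ext η
      simp
    rw [this]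
    refine isClosed_iInter fun i => isClosed_iInter fun _ => isClosed_iInter fun _ => ?_
    apply isClosed_le _ continuous_const
    exact ((continuous_subtype_val.comp (continuous_apply i)).sub continuous_const).abs
  have hFsub : ∀ n, F (n + 1) ⊆ F n := by
    rintro n η ⟨h1, h2⟩
    refine ⟨h1, fun i hi hin => (h2 i hi (by omega)).trans ?_⟩
    exact pow_le_pow_of_le_one (by norm_num) (by norm_num) (Nat.le_succ n)
  have hex : ∃ N, F N = ∅ := by
    by_contra hne
    push Not at hne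
    obtain ⟨η, hη⟩ := IsCompact.nonempty_iInter_of_sequence_nonempty_isCompact_isClosed F hFsub
      hne (hFcl 0).isCompact hFcl
    rw [Set.mem_iInter] at hη
    apply (hη 0).1
    apply h
    intro i hi
    apply Subtype.ext
    have h1 : ∀ n, i < n → |((η i : unitInterval) : ℝ) - ((ω i : unitInterval) : ℝ)| ≤ (1 / 2) ^ n :=
      fun n hn => (hη n).2 i hi hn
    have h2 : |((η i : unitInterval) : ℝ) - ((ω i : unitInterval) : ℝ)| ≤ 0 := by
      refine ge_of_tendsto (tendsto_pow_atTop_nhds_zero_of_lt_one (r := (1 / 2 : ℝ)) (by norm_num)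
        (by norm_num)) ?_
      filter_upwards [Filter.eventually_gt_atTop i] with n hn using h1 n hn
    have h3 := abs_nonpos_iff.mp h2
    linarith
  obtain ⟨N, hN⟩ := hex
  have hanti : Antitone F := antitone_nat_of_succ_le hFsub
  refine ⟨N, fun k hk η hη => ?_⟩
  by_contra hηU
  have : η ∈ F k := ⟨hηU, fun i hi hik => dist_of_q_eq (hη i hi hik)⟩
  have := hanti hk this
  rw [hN] at this
  exact this

/-- The infinite box operation. -/
def BoxInf (A B : Set Om) : Set Om :=
  {ω | ∃ J K : Set ℕ, Disjoint J K ∧ (∀ η : Om, (∀ i ∈ J, η i = ω i) → η ∈ A) ∧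
    (∀ η : Om, (∀ i ∈ K, η i = ω i) → η ∈ B)}

/-- BKR for open sets and arbitrary witness sets. -/
theorem bkr_open {U V : Set Om} (hU : IsOpen U) (hV : IsOpen V) :
    ∃ C : Set Om, MeasurableSet C ∧ BoxInf U V ⊆ C ∧ mu C ≤ mu U * mu V := by
  classical
  let A : ∀ k, Finset (Fin k → Fin (2 ^ k)) := fun k =>
    Finset.univ.filter fun s => ∀ η : Om, Q k η = s → η ∈ U
  let B : ∀ k, Finset (Fin k → Fin (2 ^ k)) := fun k =>
    Finset.univ.filter fun s => ∀ η : Om, Q k η = s → η ∈ V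
  let C : ∀ k, Finset (Fin k → Fin (2 ^ k)) := fun k =>
    Finset.univ.filter fun s => s ∈ Box (A k : Set (Fin k → Fin (2 ^ k))) (B k : Set _)
  have hA : ∀ k, Q k ⁻¹' (A k : Set (Fin k → Fin (2 ^ k))) ⊆ U := by
    intro k η hη
    simp only [A, Finset.coe_filter, Finset.mem_univ, true_and, Set.mem_preimage,
      Set.mem_ofPred_eq] at hη
    exact hη η rfl
  have hB : ∀ k, Q k ⁻¹' (B k : Set (Fin k → Fin (2 ^ k))) ⊆ V := by
    intro k η hη
    simp only [B, Finset.coe_filter, Finset.mem_univ, true_and, Set.mem_preimage,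
      Set.mem_ofPred_eq] at hη
    exact hη η rfl
  have hCk : ∀ k, mu (Q k ⁻¹' (C k : Set (Fin k → Fin (2 ^ k)))) ≤ mu U * mu V := by
    intro k
    refine (mu_Q_box k (A k) (B k) (C k) ?_).trans
      (mul_le_mul' (measure_mono (hA k)) (measure_mono (hB k)))
    intro s hs
    simpa [C] using hs
  let S : ℕ → Set Om := fun N => ⋂ k ∈ Set.Ici N, Q k ⁻¹' (C k : Set (Fin k → Fin (2 ^ k)))
  have hSmeas : ∀ N, MeasurableSet (S N) := by
    intro N
    refine MeasurableSet.biInter (Set.to_countable _) fun k _ => ?_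
    exact measurable_Q k (Set.Finite.measurableSet (Finset.finite_toSet _))
  have hSmono : Monotone S := by
    intro N M hNM
    apply Set.biInter_subset_biInter_left
    exact Set.Ici_subset_Ici.mpr hNM
  refine ⟨⋃ N, S N, MeasurableSet.iUnion hSmeas, ?_, ?_⟩
  · rintro ω ⟨J, K, hJK, hJ, hK⟩
    obtain ⟨N1, hN1⟩ := cyl_open hU hJ
    obtain ⟨N2, hN2⟩ := cyl_open hV hK
    rw [Set.mem_iUnion]
    refine ⟨max N1 N2, ?_⟩
    simp only [S, Set.mem_iInter, Set.mem_Ici]
    intro k hk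
    simp only [C, Finset.coe_filter, Finset.mem_univ, true_and, Set.mem_preimage,
      Set.mem_ofPred_eq]
    refine ⟨{i | (i : ℕ) ∈ J}, {i | (i : ℕ) ∈ K}, ?_, ?_, ?_⟩
    · rw [Set.disjoint_left]
      intro i hi hi'
      exact Set.disjoint_left.mp hJK hi hi'
    · intro s hs
      simp only [A, Finset.coe_filter, Finset.mem_univ, true_and, Set.mem_ofPred_eq]
      rintro η rfl
      exact hN1 k (le_trans (le_max_left _ _) hk) η fun i hi hik => hs ⟨i, hik⟩ hi
    · intro s hs
      simp only [B, Finset.coe_filter, Finset.mem_univ, true_and, Set.mem_ofPred_eq]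
      rintro η rfl
      exact hN2 k (le_trans (le_max_right _ _) hk) η fun i hi hik => hs ⟨i, hik⟩ hi
  · rw [hSmono.measure_iUnion]
    apply iSup_le
    intro N
    refine le_trans (measure_mono ?_) (hCk N)
    exact Set.biInter_subset_of_mem (Set.mem_Ici.mpr le_rfl)

/-- BKR on the sequence space with arbitrary witness sets (all sets `A`, `B`, with outer
measures). -/
theorem bkr_inf (A B : Set Om) :
    ∃ C : Set Om, MeasurableSet C ∧ BoxInf A B ⊆ C ∧ mu C ≤ mu A * mu B := by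
  have hpos : ∀ n : ℕ, ((n : ENNReal) + 1)⁻¹ ≠ 0 := by
    intro n
    simp
  choose U hAU hUo hUm using fun n : ℕ => Set.exists_isOpen_le_add A mu (hpos n)
  choose V hBV hVo hVm using fun n : ℕ => Set.exists_isOpen_le_add B mu (hpos n)
  choose C hCm hCsub hCle using fun n : ℕ => bkr_open (hUo n) (hVo n)
  refine ⟨⋂ n, C n, MeasurableSet.iInter hCm, ?_, ?_⟩
  · rintro ω ⟨J, K, hJK, hJ, hK⟩
    rw [Set.mem_iInter]
    intro n
    apply hCsub n
    exact ⟨J, K, hJK, fun η hη => hAU n (hJ η hη), fun η hη => hBV n (hK η hη)⟩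
  · have h1 : ∀ n : ℕ, mu (⋂ n, C n) ≤
        (mu A + ((n : ENNReal) + 1)⁻¹) * (mu B + ((n : ENNReal) + 1)⁻¹) := by
      intro n
      refine (measure_mono (Set.iInter_subset C n)).trans ((hCle n).trans ?_)
      exact mul_le_mul' (hUm n) (hVm n)
    have h0 : Filter.Tendsto (fun n : ℕ => ((n : ENNReal) + 1)⁻¹) Filter.atTop (nhds 0) := by
      have := ENNReal.tendsto_inv_nat_nhds_zero
      have h2 := (Filter.tendsto_add_atTop_iff_nat 1).mpr this
      simpa using h2
    have h2 : Filter.Tendsto (fun n : ℕ => mu A + ((n : ENNReal) + 1)⁻¹) Filter.atTop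
        (nhds (mu A)) := by
      simpa using tendsto_const_nhds.add h0
    have h3 : Filter.Tendsto (fun n : ℕ => mu B + ((n : ENNReal) + 1)⁻¹) Filter.atTop
        (nhds (mu B)) := by
      simpa using tendsto_const_nhds.add h0
    exact ge_of_tendsto' (ENNReal.Tendsto.mul h2 (Or.inr (measure_ne_top _ _)) h3
      (Or.inr (measure_ne_top _ _))) h1

end Pool.Agent.Lib.MP_63e314_pr
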